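import Pool.Agent.W793.SCH.Stm

open MeasureTheory Filter Real
open scoped Topology

namespace Pool.Agent.W446.SCH

/-- moments of the Gaussian -/
theorem int_abs_pow (b : ℝ) (hb : 0 < b) (k : ℕ) :
    Integrable fun x : ℝ => |x| ^ k * Real.exp (-(b * x ^ 2)) := by
  have h := (integrable_rpow_mul_exp_neg_mul_sq hb (s := (k : ℝ))
    (lt_of_lt_of_le (by norm_num) (Nat.cast_nonneg k))).norm
  refine h.congr (Filter.Eventually.of_forall fun x => ?_)
  simp only [Real.rpow_natCast, norm_mul, norm_pow, Real.norm_eq_abs, Real.abs_exp]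
  rw [neg_mul]

/-- integrability of products of a continuous function which is bounded by `C|x|^k` with the
Gaussian -/
theorem int_bdd (b : ℝ) (hb : 0 < b) (k : ℕ) (f : ℝ → ℝ) (hf : Continuous f) (C : ℝ)
    (hC : ∀ x, |f x| ≤ C * |x| ^ k) :
    Integrable fun x : ℝ => f x * Real.exp (-(b * x ^ 2)) := by
  refine ((int_abs_pow b hb k).const_mul C).mono' ?_ (Filter.Eventually.of_forall fun x => ?_)
  · exact (hf.mul (by fun_prop)).aestronglyMeasurable
  · rw [norm_mul, Real.norm_eq_abs, Real.norm_eq_abs, Real.abs_exp, ← mul_assoc]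
    exact mul_le_mul_of_nonneg_right (hC x) (Real.exp_nonneg _)

theorem gauss0 (t x : ℝ) (ht : 0 < t) :
    ∫ φ : ℝ, Real.cos (x * φ) * Real.exp (-(t * φ ^ 2)) =
      2 * π * (Real.exp (-(x ^ 2 / (4 * t))) / Real.sqrt (4 * π * t)) := by
  have h := fourierIntegral_gaussian (b := (t : ℂ)) (by simpa using ht) (x : ℂ)
  have h1 : ∀ φ : ℝ, Real.cos (x * φ) * Real.exp (-(t * φ ^ 2)) =
      (Complex.exp (Complex.I * x * φ) * Complex.exp (-(t : ℂ) * (φ : ℂ) ^ 2)).re := by
    intro φ
    have e1 : Complex.I * x * φ = ((x * φ : ℝ) : ℂ) * Complex.I := by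
      push_cast
      ring
    have e2 : -(t : ℂ) * (φ : ℂ) ^ 2 = ((-(t * φ ^ 2) : ℝ) : ℂ) := by
      push_cast
      ring
    rw [e1, e2, ← Complex.ofReal_exp, Complex.re_mul_ofReal, Complex.exp_ofReal_mul_I_re]
  have hint : Integrable fun φ : ℝ =>
      Complex.exp (Complex.I * x * φ) * Complex.exp (-(t : ℂ) * (φ : ℂ) ^ 2) := by
    have h2 := integrable_cexp_quadratic (b := (t : ℂ)) (by simpa using ht) (Complex.I * x) 0
    refine h2.congr (Filter.Eventually.of_forall fun φ => ?_)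
    simp only
    rw [← Complex.exp_add]
    congr 1
    ring
  calc ∫ φ : ℝ, Real.cos (x * φ) * Real.exp (-(t * φ ^ 2))
      = ∫ φ : ℝ, (Complex.exp (Complex.I * x * φ) *
          Complex.exp (-(t : ℂ) * (φ : ℂ) ^ 2)).re := by
        congr 1
        funext φ
        exact h1 φ
    _ = (∫ φ : ℝ, Complex.exp (Complex.I * x * φ) *
          Complex.exp (-(t : ℂ) * (φ : ℂ) ^ 2)).re := integral_re hint
    _ = ((π / t : ℂ) ^ (1 / 2 : ℂ) * Complex.exp (-(x : ℂ) ^ 2 / (4 * t))).re := by rw [h]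
    _ = 2 * π * (Real.exp (-(x ^ 2 / (4 * t))) / Real.sqrt (4 * π * t)) := by
        have e3 : (π / t : ℂ) ^ (1 / 2 : ℂ) = ((Real.sqrt (π / t) : ℝ) : ℂ) := by
          rw [Real.sqrt_eq_rpow, Complex.ofReal_cpow (by positivity)]
          push_cast
          rfl
        have e4 : -(x : ℂ) ^ 2 / (4 * t) = ((-(x ^ 2 / (4 * t)) : ℝ) : ℂ) := by
          push_cast
          ring
        rw [e3, e4, ← Complex.ofReal_exp, ← Complex.ofReal_mul, Complex.ofReal_re]
        have e5 : Real.sqrt (π / t) = 2 * π / Real.sqrt (4 * π * t) := by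
          have hp : (0 : ℝ) < π := Real.pi_pos
          rw [eq_div_iff (by positivity), ← Real.sqrt_mul (by positivity)]
          have : π / t * (4 * π * t) = (2 * π) ^ 2 := by
            field_simp
            ring
          rw [this, Real.sqrt_sq (by positivity)]
        rw [e5]
        ring

theorem hasDeriv_v (t : ℝ) (ht : 0 < t) (φ : ℝ) :
    HasDerivAt (fun φ : ℝ => -(1 / (2 * t)) * Real.exp (-(t * φ ^ 2)))
      (φ * Real.exp (-(t * φ ^ 2))) φ := by
  have h1 : HasDerivAt (fun φ : ℝ => -(t * φ ^ 2)) (-(t * (2 * φ))) φ := by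
    have h0 : HasDerivAt (fun φ : ℝ => t * φ ^ 2) (t * (2 * φ)) φ := by
      simpa using (hasDerivAt_pow 2 φ).const_mul t
    exact h0.fun_neg
  have h2 : HasDerivAt (fun φ : ℝ => -(1 / (2 * t)) * Real.exp (-(t * φ ^ 2)))
      (-(1 / (2 * t)) * (Real.exp (-(t * φ ^ 2)) * (-(t * (2 * φ))))) φ :=
    (h1.exp).const_mul (-(1 / (2 * t)))
  have h3 : φ * Real.exp (-(t * φ ^ 2)) =
      -(1 / (2 * t)) * (Real.exp (-(t * φ ^ 2)) * (-(t * (2 * φ)))) := by
    have hE : ∀ E : ℝ, φ * E = -(1 / (2 * t)) * (E * (-(t * (2 * φ)))) := by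
      intro E
      field_simp
    exact hE _
  rw [h3]
  exact h2

theorem gauss1 (t x : ℝ) (ht : 0 < t) :
    ∫ φ : ℝ, -(φ * Real.sin (x * φ)) * Real.exp (-(t * φ ^ 2)) =
      -(x / (2 * t)) * ∫ φ : ℝ, Real.cos (x * φ) * Real.exp (-(t * φ ^ 2)) := by
  have hu : ∀ φ : ℝ, HasDerivAt (fun φ : ℝ => Real.sin (x * φ)) (x * Real.cos (x * φ)) φ := by
    intro φ
    have h1 : HasDerivAt (fun φ : ℝ => x * φ) x φ := by
      simpa using (hasDerivAt_id φ).const_mul x
    have h2 := h1.sin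
    convert h2 using 1
    ring
  have key := integral_mul_deriv_eq_deriv_mul_of_integrable
    (u := fun φ : ℝ => Real.sin (x * φ)) (u' := fun φ => x * Real.cos (x * φ))
    (v := fun φ : ℝ => -(1 / (2 * t)) * Real.exp (-(t * φ ^ 2)))
    (v' := fun φ => φ * Real.exp (-(t * φ ^ 2))) (fun φ _ => hu φ) (fun φ _ => hasDeriv_v t ht φ)
    ?_ ?_ ?_
  · have e1 : ∫ φ : ℝ, -(φ * Real.sin (x * φ)) * Real.exp (-(t * φ ^ 2)) =
        -∫ φ : ℝ, Real.sin (x * φ) * (φ * Real.exp (-(t * φ ^ 2))) := by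
      rw [← integral_neg]
      congr 1
      funext φ
      ring
    rw [e1, key, neg_neg, ← integral_const_mul]
    congr 1
    funext φ
    ring
  · have := int_bdd t ht 1 (fun φ => φ * Real.sin (x * φ)) (by fun_prop) 1 (fun φ => by
      rw [abs_mul, one_mul, pow_one]
      exact mul_le_of_le_one_right (abs_nonneg _) (Real.abs_sin_le_one _))
    refine this.congr (Filter.Eventually.of_forall fun φ => ?_)
    simp only [Pi.mul_apply]
    ring
  · have := int_bdd t ht 0 (fun φ => -(1 / (2 * t)) * x * Real.cos (x * φ)) (by fun_prop)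
      |(-(1 / (2 * t)) * x)| (fun φ => by
      rw [abs_mul, pow_zero, mul_one]
      exact mul_le_of_le_one_right (abs_nonneg _) (Real.abs_cos_le_one _))
    refine this.congr (Filter.Eventually.of_forall fun φ => ?_)
    simp only [Pi.mul_apply]
    ring
  · have := int_bdd t ht 0 (fun φ => -(1 / (2 * t)) * Real.sin (x * φ)) (by fun_prop)
      |(-(1 / (2 * t)))| (fun φ => by
      rw [abs_mul, pow_zero, mul_one]
      exact mul_le_of_le_one_right (abs_nonneg _) (Real.abs_sin_le_one _))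
    refine this.congr (Filter.Eventually.of_forall fun φ => ?_)
    simp only [Pi.mul_apply]
    ring

theorem gauss2 (t x : ℝ) (ht : 0 < t) :
    ∫ φ : ℝ, -(φ ^ 2 * Real.cos (x * φ)) * Real.exp (-(t * φ ^ 2)) =
      (x ^ 2 / (4 * t ^ 2) - 1 / (2 * t)) *
        ∫ φ : ℝ, Real.cos (x * φ) * Real.exp (-(t * φ ^ 2)) := by
  have hu : ∀ φ : ℝ, HasDerivAt (fun φ : ℝ => φ * Real.cos (x * φ))
      (Real.cos (x * φ) - x * φ * Real.sin (x * φ)) φ := by
    intro φ
    have h1 : HasDerivAt (fun φ : ℝ => x * φ) x φ := by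
      simpa using (hasDerivAt_id φ).const_mul x
    have h2 := (hasDerivAt_id φ).fun_mul h1.cos
    have h3 : Real.cos (x * φ) - x * φ * Real.sin (x * φ) =
      1 * Real.cos (x * φ) + id φ * (-Real.sin (x * φ) * x) := by
      simp only [id]
      ring
    rw [h3]
    exact h2
  have i0 : Integrable fun φ : ℝ => Real.cos (x * φ) * Real.exp (-(t * φ ^ 2)) :=
    int_bdd t ht 0 (fun φ => Real.cos (x * φ)) (by fun_prop) 1 (fun φ => by
      rw [pow_zero, mul_one]
      exact Real.abs_cos_le_one _)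
  have i1 : Integrable fun φ : ℝ => -(φ * Real.sin (x * φ)) * Real.exp (-(t * φ ^ 2)) :=
    int_bdd t ht 1 (fun φ => -(φ * Real.sin (x * φ))) (by fun_prop) 1 (fun φ => by
      rw [abs_neg, abs_mul, one_mul, pow_one]
      exact mul_le_of_le_one_right (abs_nonneg _) (Real.abs_sin_le_one _))
  have key := integral_mul_deriv_eq_deriv_mul_of_integrable
    (u := fun φ : ℝ => φ * Real.cos (x * φ))
    (u' := fun φ => Real.cos (x * φ) - x * φ * Real.sin (x * φ))
    (v := fun φ : ℝ => -(1 / (2 * t)) * Real.exp (-(t * φ ^ 2)))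
    (v' := fun φ => φ * Real.exp (-(t * φ ^ 2))) (fun φ _ => hu φ) (fun φ _ => hasDeriv_v t ht φ)
    ?_ ?_ ?_
  · have e1 : ∫ φ : ℝ, -(φ ^ 2 * Real.cos (x * φ)) * Real.exp (-(t * φ ^ 2)) =
        -∫ φ : ℝ, φ * Real.cos (x * φ) * (φ * Real.exp (-(t * φ ^ 2))) := by
      rw [← integral_neg]
      congr 1
      funext φ
      ring
    have e2 : ∫ φ : ℝ, (Real.cos (x * φ) - x * φ * Real.sin (x * φ)) *
        (-(1 / (2 * t)) * Real.exp (-(t * φ ^ 2))) =
        -(1 / (2 * t)) * (∫ φ : ℝ, Real.cos (x * φ) * Real.exp (-(t * φ ^ 2))) +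
        -(1 / (2 * t)) * x *
          (∫ φ : ℝ, -(φ * Real.sin (x * φ)) * Real.exp (-(t * φ ^ 2))) := by
      rw [← integral_const_mul, ← integral_const_mul,
        ← integral_add (i0.const_mul _) (i1.const_mul _)]
      congr 1
      funext φ
      ring
    rw [e1, key, neg_neg, e2, gauss1 t x ht]
    field_simp
    ring
  · have := int_bdd t ht 2 (fun φ => φ ^ 2 * Real.cos (x * φ)) (by fun_prop) 1 (fun φ => by
      rw [abs_mul, one_mul, abs_pow]
      exact mul_le_of_le_one_right (by positivity) (Real.abs_cos_le_one _))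
    refine this.congr (Filter.Eventually.of_forall fun φ => ?_)
    simp only [Pi.mul_apply]
    ring
  · have := (i0.const_mul (-(1 / (2 * t)))).add (i1.const_mul (-(1 / (2 * t)) * x))
    refine this.congr (Filter.Eventually.of_forall fun φ => ?_)
    simp only [Pi.mul_apply, Pi.add_apply]
    ring
  · have := int_bdd t ht 1 (fun φ => -(1 / (2 * t)) * (φ * Real.cos (x * φ))) (by fun_prop)
      |(-(1 / (2 * t)))| (fun φ => by
      rw [abs_mul, pow_one, abs_mul φ]
      exact mul_le_mul_of_nonneg_left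
        (mul_le_of_le_one_right (abs_nonneg _) (Real.abs_cos_le_one _)) (abs_nonneg _))
    refine this.congr (Filter.Eventually.of_forall fun φ => ?_)
    simp only [Pi.mul_apply]
    ring

/-- the trigonometric factor -/
noncomputable def Dr (r : ℕ) (n : ℤ) (θ : ℝ) : ℝ :=
  if r = 0 then Real.cos (n * θ) else if r = 1 then Real.cos ((n + 1 : ℝ) * θ) - Real.cos (n * θ)
  else 2 * (Real.cos θ - 1) * Real.cos (n * θ)

theorem Dr_cont (r : ℕ) (n : ℤ) : Continuous (Dr r n) := by
  unfold Dr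
  split_ifs <;> fun_prop

theorem Dr_bound (r : ℕ) (hr : r < 3) (n : ℤ) (θ : ℝ) : |Dr r n θ| ≤ |θ| ^ r := by
  unfold Dr
  interval_cases r
  · simp only [if_true, pow_zero]
    exact Real.abs_cos_le_one _
  · simp only [one_ne_zero, if_false, if_true, pow_one]
    rw [Real.cos_sub_cos, abs_mul, abs_mul]
    have e1 : (((n : ℝ) + 1) * θ - n * θ) / 2 = θ / 2 := by ring
    rw [e1]
    have h1 : |Real.sin (((((n : ℝ) + 1) * θ) + n * θ) / 2)| ≤ 1 := Real.abs_sin_le_one _
    have h2 : |Real.sin (θ / 2)| ≤ |θ / 2| := Real.abs_sin_le_abs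
    have h3 : |θ / 2| = |θ| / 2 := by rw [abs_div]; simp
    have h4 : |(-2 : ℝ)| = 2 := by norm_num
    rw [h4]
    rw [h3] at h2
    nlinarith [abs_nonneg (Real.sin (θ / 2)), abs_nonneg (Real.sin (((((n : ℝ) + 1) * θ) + n * θ) / 2))]
  · simp only [OfNat.ofNat_ne_zero, if_false, OfNat.ofNat_ne_one]
    rw [abs_mul, sq_abs]
    have h1 : |Real.cos (n * θ)| ≤ 1 := Real.abs_cos_le_one _
    have h2 : |2 * (Real.cos θ - 1)| ≤ θ ^ 2 := by
      rw [abs_of_nonpos (by linarith [Real.cos_le_one θ])]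
      linarith [Real.one_sub_sq_div_two_le_cos (x := θ)]
    calc |2 * (Real.cos θ - 1)| * |Real.cos (n * θ)| ≤ |2 * (Real.cos θ - 1)| * 1 :=
          mul_le_mul_of_nonneg_left h1 (abs_nonneg _)
      _ = |2 * (Real.cos θ - 1)| := mul_one _
      _ ≤ θ ^ 2 := h2

open Pool.Agent.W793.SCH in
theorem hd_eq (r : ℕ) (hr : r < 3) (T : ℝ) (n : ℤ) :
    hd r T n = 1 / (2 * π) * ∫ θ in (-π)..π, Dr r n θ * Real.exp (-(T * (2 - 2 * Real.cos θ))) := by
  have hint : ∀ m : ℤ, IntervalIntegrable (fun θ : ℝ => Real.cos (m * θ) *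
      Real.exp (-(T * (2 - 2 * Real.cos θ)))) volume (-π) π := by
    intro m
    apply Continuous.intervalIntegrable
    fun_prop
  unfold hd
  interval_cases r
  · simp only [if_true]
    unfold hk Dr
    simp only [if_true]
  · simp only [one_ne_zero, if_false, if_true]
    unfold hk Dr
    simp only [one_ne_zero, if_false, if_true]
    rw [← mul_sub, ← intervalIntegral.integral_sub (hint (n + 1)) (hint n)]
    congr 1
    apply intervalIntegral.integral_congr
    intro θ _
    simp only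
    push_cast
    ring
  · simp only [OfNat.ofNat_ne_zero, if_false, OfNat.ofNat_ne_one]
    unfold hk Dr
    simp only [OfNat.ofNat_ne_zero, if_false, OfNat.ofNat_ne_one]
    have e : ∀ A B C c : ℝ, c * A - 2 * (c * B) + c * C = c * (A - 2 * B + C) := by
      intro A B C c
      ring
    rw [e, ← intervalIntegral.integral_const_mul,
      ← intervalIntegral.integral_sub (hint (n + 1)) ((hint n).const_mul 2),
      ← intervalIntegral.integral_add ((hint (n + 1)).sub ((hint n).const_mul 2)) (hint (n - 1))]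
    congr 1
    apply intervalIntegral.integral_congr
    intro θ _
    simp only
    push_cast
    have e2 : Real.cos (((n : ℝ) + 1) * θ) + Real.cos (((n : ℝ) - 1) * θ) =
        2 * Real.cos θ * Real.cos (n * θ) := by
      have h1 : ((n : ℝ) + 1) * θ = n * θ + θ := by ring
      have h2 : ((n : ℝ) - 1) * θ = n * θ - θ := by ring
      rw [h1, h2, Real.cos_add, Real.cos_sub]
      ring
    linear_combination Real.exp (-(T * (2 - 2 * Real.cos θ))) * e2

/-- the integrand after the substitution -/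
noncomputable def FF (r : ℕ) (t : ℝ) (z : ℤ) (q : ℕ) (φ : ℝ) : ℝ :=
  (q : ℝ) ^ r * Dr r z (φ / q) * Real.exp (-((q : ℝ) ^ 2 * t * (2 - 2 * Real.cos (φ / q))))

theorem FF_cont (r : ℕ) (t : ℝ) (z : ℤ) (q : ℕ) : Continuous (FF r t z q) := by
  unfold FF
  have h := (Dr_cont r z).comp (continuous_id.div_const (q : ℝ))
  exact (continuous_const.mul h).mul (by fun_prop)

open Pool.Agent.W793.SCH in
theorem subst (r : ℕ) (hr : r < 3) (t : ℝ) (z : ℤ) (q : ℕ) (hq : 0 < q) :
    (q : ℝ) ^ (r + 1) * hd r ((q : ℝ) ^ 2 * t) z =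
      1 / (2 * π) * ∫ φ, (Set.Ioc (-(π * q)) (π * q)).indicator (FF r t z q) φ := by
  have hq' : (0 : ℝ) < q := by exact_mod_cast hq
  rw [hd_eq r hr, integral_indicator measurableSet_Ioc,
    ← intervalIntegral.integral_of_le (by nlinarith [Real.pi_pos])]
  have h1 := intervalIntegral.integral_comp_div (a := -(π * q)) (b := π * q)
    (fun θ => (q : ℝ) ^ r * (Dr r z θ *
      Real.exp (-((q : ℝ) ^ 2 * t * (2 - 2 * Real.cos θ))))) (ne_of_gt hq')
  have h2 : ∫ φ in (-(π * q))..(π * q), FF r t z q φ =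
      ∫ φ in (-(π * q))..(π * q), (q : ℝ) ^ r * (Dr r z (φ / q) *
        Real.exp (-((q : ℝ) ^ 2 * t * (2 - 2 * Real.cos (φ / q))))) := by
    apply intervalIntegral.integral_congr
    intro φ _
    unfold FF
    ring
  have e1 : -(π * q) / (q : ℝ) = -π := by field_simp
  have e2 : π * q / (q : ℝ) = π := by field_simp
  rw [e1, e2] at h1
  rw [h2, h1, intervalIntegral.integral_const_mul, smul_eq_mul]
  ring

theorem FF_bound (r : ℕ) (hr : r < 3) (t : ℝ) (ht : 0 < t) (z : ℤ) (q : ℕ) (hq : 0 < q) (φ : ℝ)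
    (hφ : |φ| ≤ π * q) :
    |FF r t z q φ| ≤ |φ| ^ r * Real.exp (-(4 * t / π ^ 2 * φ ^ 2)) := by
  have hq' : (0 : ℝ) < q := by exact_mod_cast hq
  unfold FF
  rw [abs_mul, Real.abs_exp]
  apply mul_le_mul
  · rw [abs_mul, abs_pow, Nat.abs_cast]
    have h1 := Dr_bound r hr z (φ / q)
    calc (q : ℝ) ^ r * |Dr r z (φ / q)| ≤ (q : ℝ) ^ r * |φ / q| ^ r :=
          mul_le_mul_of_nonneg_left h1 (by positivity)
      _ = |φ| ^ r := by
          rw [← mul_pow, abs_div, Nat.abs_cast]
          congr 1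
          field_simp
  · apply Real.exp_le_exp.mpr
    apply neg_le_neg
    have h1 : |φ / q| ≤ π := by
      rw [abs_div, Nat.abs_cast, div_le_iff₀ hq']
      exact hφ
    have h2 := Real.cos_le_one_sub_mul_cos_sq h1
    have h3 : 4 / π ^ 2 * (φ / q) ^ 2 ≤ 2 - 2 * Real.cos (φ / q) := by
      have e : 4 / π ^ 2 * (φ / q) ^ 2 = 2 * (2 / π ^ 2 * (φ / q) ^ 2) := by ring
      rw [e]
      linarith
    calc 4 * t / π ^ 2 * φ ^ 2 = (q : ℝ) ^ 2 * t * (4 / π ^ 2 * (φ / q) ^ 2) := by
          field_simp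
      _ ≤ (q : ℝ) ^ 2 * t * (2 - 2 * Real.cos (φ / q)) :=
          mul_le_mul_of_nonneg_left h3 (by positivity)
  · positivity
  · positivity

/-- the limit of the integrand -/
noncomputable def GG (r : ℕ) (t x φ : ℝ) : ℝ :=
  (if r = 0 then Real.cos (x * φ) else if r = 1 then -(φ * Real.sin (x * φ))
    else -(φ ^ 2 * Real.cos (x * φ))) * Real.exp (-(t * φ ^ 2))

theorem sin_lim (c : ℝ) : Tendsto (fun q : ℕ => (q : ℝ) * Real.sin (c / q)) atTop (𝓝 c) := by
  have h1 : Tendsto (fun q : ℕ => c / (q : ℝ)) atTop (𝓝 0) :=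
    tendsto_const_nhds.div_atTop tendsto_natCast_atTop_atTop
  have h2 : Tendsto (fun q : ℕ => c * Real.sinc (c / q)) atTop (𝓝 (c * Real.sinc 0)) :=
    ((Real.continuous_sinc.tendsto 0).comp h1).const_mul c
  rw [Real.sinc_zero, mul_one] at h2
  refine h2.congr' ?_
  filter_upwards [eventually_gt_atTop 0] with q hq
  have hq' : (0 : ℝ) < q := by exact_mod_cast hq
  by_cases hc : c = 0
  · simp [hc]
  · rw [Real.sinc_of_ne_zero (by positivity)]
    field_simp

theorem FF_lim (r : ℕ) (hr : r < 3) (t x : ℝ) (z : ℕ → ℤ)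
    (hz : Tendsto (fun q : ℕ => (z q : ℝ) / q) atTop (𝓝 x)) (φ : ℝ) :
    Tendsto (fun q : ℕ => FF r t (z q) q φ) atTop (𝓝 (GG r t x φ)) := by
  have hs := sin_lim (φ / 2)
  have hs2 : Tendsto (fun q : ℕ => (2 * ((q : ℝ) * Real.sin (φ / 2 / q))) ^ 2) atTop (𝓝 (φ ^ 2)) := by
    have := (hs.const_mul 2).pow 2
    have e : 2 * (φ / 2) = φ := by ring
    rwa [e] at this
  have hsq : ∀ q : ℕ, (2 * ((q : ℝ) * Real.sin (φ / 2 / q))) ^ 2 =
      (q : ℝ) ^ 2 * (2 - 2 * Real.cos (φ / q)) := by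
    intro q
    have e1 : φ / (q : ℝ) = 2 * (φ / 2 / q) := by ring
    have e2 := Real.cos_two_mul (φ / 2 / (q : ℝ))
    have e3 := Real.sin_sq_add_cos_sq (φ / 2 / (q : ℝ))
    rw [e1, e2]
    have e4 : Real.cos (φ / 2 / (q : ℝ)) ^ 2 = 1 - Real.sin (φ / 2 / (q : ℝ)) ^ 2 := by linarith
    rw [e4]
    ring
  have hexp : Tendsto (fun q : ℕ => Real.exp (-((q : ℝ) ^ 2 * t * (2 - 2 * Real.cos (φ / q)))))
      atTop (𝓝 (Real.exp (-(t * φ ^ 2)))) := by
    have h1 := (Real.continuous_exp.tendsto _).comp ((hs2.const_mul t).neg)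
    refine h1.congr fun q => ?_
    simp only [Function.comp]
    rw [hsq q]
    congr 1
    ring
  have harg : Tendsto (fun q : ℕ => (z q : ℝ) * (φ / q)) atTop (𝓝 (x * φ)) := by
    refine (hz.mul_const φ).congr fun q => ?_
    ring
  have hcos : Tendsto (fun q : ℕ => Real.cos ((z q : ℝ) * (φ / q))) atTop (𝓝 (Real.cos (x * φ))) :=
    (Real.continuous_cos.tendsto _).comp harg
  unfold FF GG
  refine Tendsto.mul ?_ hexp
  unfold Dr
  interval_cases r
  · simpa using hcos
  · simp only [one_ne_zero, if_false, if_true, pow_one]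
    have h0 : Tendsto (fun q : ℕ => (φ / 2) / (q : ℝ)) atTop (𝓝 0) :=
      tendsto_const_nhds.div_atTop tendsto_natCast_atTop_atTop
    have h1 : Tendsto (fun q : ℕ => Real.sin ((z q : ℝ) * (φ / q) + φ / 2 / q)) atTop
        (𝓝 (Real.sin (x * φ + 0))) := (Real.continuous_sin.tendsto _).comp (harg.add h0)
    rw [add_zero] at h1
    have h2 := (((hs.const_mul 2).mul h1).neg)
    have e : -(2 * (φ / 2) * Real.sin (x * φ)) = -(φ * Real.sin (x * φ)) := by ring
    rw [e] at h2
    refine h2.congr fun q => ?_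
    rw [Real.cos_sub_cos]
    have e1 : (((z q : ℝ) + 1) * (φ / q) + z q * (φ / q)) / 2 = z q * (φ / q) + φ / 2 / q := by ring
    have e2 : (((z q : ℝ) + 1) * (φ / q) - z q * (φ / q)) / 2 = φ / 2 / q := by ring
    rw [e1, e2]
    ring
  · simp only [OfNat.ofNat_ne_zero, if_false, OfNat.ofNat_ne_one]
    refine ((hs2.mul hcos).neg).congr fun q => ?_
    rw [hsq q]
    ring

theorem GG_int (r : ℕ) (hr : r < 3) (t x : ℝ) (ht : 0 < t) :
    1 / (2 * π) * ∫ φ, GG r t x φ = Pool.Agent.W793.SCH.rd r t x := by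
  have hp : (0 : ℝ) < π := Real.pi_pos
  have g0 := gauss0 t x ht
  unfold GG Pool.Agent.W793.SCH.rd
  interval_cases r
  · simp only [if_true]
    rw [g0]
    field_simp
  · simp only [one_ne_zero, if_false, if_true]
    rw [gauss1 t x ht, g0]
    field_simp
  · simp only [OfNat.ofNat_ne_zero, if_false, OfNat.ofNat_ne_one]
    rw [gauss2 t x ht, g0]
    field_simp

theorem t_HL : Pool.Agent.W793.SCH.S_HL := by
  intro r hr t x ht z hz
  rw [← GG_int r hr t x ht]
  have hmain : Tendsto (fun q : ℕ => 1 / (2 * π) *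
      ∫ φ, (Set.Ioc (-(π * q)) (π * q)).indicator (FF r t (z q) q) φ) atTop
      (𝓝 (1 / (2 * π) * ∫ φ, GG r t x φ)) := by
    apply Tendsto.const_mul
    apply tendsto_integral_filter_of_dominated_convergence
      (fun φ => |φ| ^ r * Real.exp (-(4 * t / π ^ 2 * φ ^ 2)))
    · exact Filter.Eventually.of_forall fun q =>
        ((FF_cont r t (z q) q).aestronglyMeasurable.indicator measurableSet_Ioc)
    · filter_upwards [eventually_gt_atTop 0] with q hq
      refine Filter.Eventually.of_forall fun φ => ?_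
      rw [Real.norm_eq_abs]
      by_cases h : φ ∈ Set.Ioc (-(π * q)) (π * q)
      · rw [Set.indicator_of_mem h]
        exact FF_bound r hr t ht (z q) q hq φ (abs_le.mpr ⟨h.1.le, h.2⟩)
      · rw [Set.indicator_of_notMem h, abs_zero]
        positivity
    · exact int_abs_pow _ (by positivity) r
    · refine Filter.Eventually.of_forall fun φ => ?_
      refine (FF_lim r hr t x z hz φ).congr' ?_
      have h1 : Tendsto (fun q : ℕ => π * (q : ℝ)) atTop atTop :=
        tendsto_natCast_atTop_atTop.const_mul_atTop Real.pi_pos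
      filter_upwards [h1.eventually_gt_atTop |φ|] with q hq
      rw [Set.indicator_of_mem]
      have := abs_lt.mp hq
      exact ⟨this.1, this.2.le⟩
  refine hmain.congr' ?_
  filter_upwards [eventually_gt_atTop 0] with q hq
  exact (subst r hr t (z q) q hq).symm

end Pool.Agent.W446.SCH
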